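import Pool.Agent.CEE.Z
import Pool.Agent.CEE.V4
import Pool.Agent.CEE.Br2

/-!
# No uniform bi-Lipschitz embedding of the totally geodesic convex core

There is one fixed compact connected space (closed surface) `S` such that for EVERY `K ≥ 1` there are
complete orientable hyperbolic 3-manifolds `M_geod = HSp / Γ₀` and `M = HSp / Γ₁` with the following
properties.
* `N := ccore Γ₀`, the convex core of `M_geod`, is compact, its boundary is nonempty and totally
  geodesic and homeomorphic to `S`, `N` has no essential annuli, and `M_geod` is homeomorphic to the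
  interior of `N`: so `M_geod` is the structure with totally geodesic boundary in `CC(N)`.
* `M` is convex cocompact and homeomorphic to the interior of `N`: `M ∈ CC(N)`.
* There is no `K`-bi-Lipschitz embedding of `N = core (M_geod)` in `M`, for the distances of the
  hyperbolic manifolds `M_geod` and `M` (no assumption on the homotopy class is needed).
So no constant `K` depends only on `∂N`.

Definitions: `Pool/Agent/CEE/Defs.lean`.  `HSp` is the hyperboloid `⟨x, x⟩ = -1` in `ℝ^{3,1}` with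
`cosh (dist x y) = -⟨x, y⟩`, `Quo Γ` the orbit space `HSp / Γ` with the quotient topology, `qdist Γ` its
distance (the infimum of the distances of lifts), `chull Γ` the smallest nonempty closed convex
`Γ`-invariant subset of `HSp`, `ccore Γ` its image in `HSp / Γ`.
-/

namespace Pool.Agent.Results.MP_cee170_gt.NoUniformEmbedding

open CEE

theorem result : ∃ (S : Type) (_ : TopologicalSpace S), CompactSpace S ∧ ConnectedSpace S ∧
    ∀ K : ℝ, 1 ≤ K → ∃ Γ₀ Γ₁ : Subgroup (HSp ≃ᵢ HSp),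
      CCGroup Γ₀ ∧ TotGeod Γ₀ ∧ NoAnnuli Γ₀ ∧
      Nonempty (frontier (ccore Γ₀) ≃ₜ S) ∧
      Nonempty (Quo Γ₀ ≃ₜ interior (ccore Γ₀)) ∧
      CCGroup Γ₁ ∧
      Nonempty (Quo Γ₁ ≃ₜ interior (ccore Γ₀)) ∧
      ¬ ∃ f : ccore Γ₀ → Quo Γ₁, Function.Injective f ∧
        ∀ x y : ccore Γ₀, K⁻¹ * qdist Γ₀ x y ≤ qdist Γ₁ (f x) (f y) ∧
          qdist Γ₁ (f x) (f y) ≤ K * qdist Γ₀ x y := by
  have hm13 : 13 ≤ 13 := le_rfl
  have ho13 : Odd 13 := by decide
  refine ⟨Sm hm13 ho13, inferInstance, Sm_compact hm13 ho13, Sm_conn hm13 ho13, fun K hK => ?_⟩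
  obtain ⟨m₀, hm₀⟩ := main_lift K
  have hm : 13 ≤ 2 * m₀ + 13 := by omega
  have ho : Odd (2 * m₀ + 13) := ⟨m₀ + 6, by ring⟩
  have hint : interior (ccore ((Gam0 hm).map jj)) = eQ (Gam0 hm) '' interior (core (Gam0 hm)) := by
    rw [ccore_eq]
    exact ((eQ (Gam0 hm)).image_interior _).symm
  have hfr : frontier (ccore ((Gam0 hm).map jj)) = eQ (Gam0 hm) '' frontier (core (Gam0 hm)) := by
    rw [ccore_eq]
    exact ((eQ (Gam0 hm)).image_frontier _).symm
  refine ⟨(Gam0 hm).map jj, (Gam1 hm).map jj, CCGroup_of _ (ConvexCocompact0 hm ho),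
    TotGeod_of _ (GeodBoundary0 hm ho), NoAnnuli0 hm ho, ?_, ?_,
    CCGroup_of _ (ConvexCocompact1 hm ho), ?_, ?_⟩
  · obtain ⟨e1⟩ := coreBd_homeo hm ho
    obtain ⟨e2⟩ := Sm_homeo hm ho hm13 ho13
    have e3 : frontier (core (Gam0 hm)) ≃ₜ coreBd (Gam0 hm) :=
      Homeomorph.setCongr (frontier_core hm ho)
    exact ⟨(eS (Gam0 hm) _ _ hfr).symm.trans (e3.trans (e1.symm.trans e2))⟩
  · obtain ⟨e1⟩ := Mfd0_int hm ho
    exact ⟨(eQ (Gam0 hm)).symm.trans (e1.trans (eS (Gam0 hm) _ _ hint))⟩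
  · obtain ⟨e1⟩ := Mfd1_int hm ho
    exact ⟨(eQ (Gam1 hm)).symm.trans (e1.trans (eS (Gam0 hm) _ _ hint))⟩
  · rintro ⟨f, -, hf⟩
    refine hm₀ hm ho (by omega) (exists_F hm ho hK
      (fun x => (eQ (Gam1 hm)).symm (f (eS (Gam0 hm) _ _ (ccore_eq (Gam0 hm)) x))) ?_)
    intro x y
    have h1 := hf (eS (Gam0 hm) _ _ (ccore_eq (Gam0 hm)) x) (eS (Gam0 hm) _ _ (ccore_eq (Gam0 hm)) y)
    have h2 : qdist ((Gam0 hm).map jj) (eS (Gam0 hm) _ _ (ccore_eq (Gam0 hm)) x)
        (eS (Gam0 hm) _ _ (ccore_eq (Gam0 hm)) y) = mdist (Gam0 hm) x y :=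
      qdist_eq (Gam0 hm) x.1 y.1
    have h3 : ∀ a b : Quo ((Gam1 hm).map jj), mdist (Gam1 hm) ((eQ (Gam1 hm)).symm a)
        ((eQ (Gam1 hm)).symm b) = qdist ((Gam1 hm).map jj) a b := by
      intro a b
      rw [← qdist_eq, Homeomorph.apply_symm_apply, Homeomorph.apply_symm_apply]
    rw [h3, ← h2]
    exact h1

end Pool.Agent.Results.MP_cee170_gt.NoUniformEmbedding
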